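import Pool.Agent.H26.MQ.Defs

/-!
# Module AK of the board mq_modules
-/

set_option autoImplicit false

open MeasureTheory Set Filter Topology

namespace Pool.Agent.H58.MQ.AK

open Pool.Agent.H26.ML Pool.Agent.H26.MQ

theorem laplace (x v : ℝ) (hx : 0 < x) :
    ∫ ξ in Ioi (0 : ℝ), Real.exp (-(x * ξ)) * Real.cos (ξ * v) = poi x v := by
  have hre : ((-x : ℂ) + v * Complex.I).re < 0 := by
    simp
    exact hx
  have h := integral_exp_mul_complex_Ioi hre 0
  have hint := integrableOn_exp_mul_complex_Ioi hre 0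
  have h2 : ∫ ξ : ℝ in Ioi (0 : ℝ), (Complex.exp (((-x : ℂ) + v * Complex.I) * ξ)).re =
      (∫ ξ : ℝ in Ioi (0 : ℝ), Complex.exp (((-x : ℂ) + v * Complex.I) * ξ)).re :=
    integral_re hint
  rw [h] at h2
  have h3 : ∀ ξ : ℝ, (Complex.exp (((-x : ℂ) + v * Complex.I) * ξ)).re =
      Real.exp (-(x * ξ)) * Real.cos (ξ * v) := by
    intro ξ
    rw [Complex.exp_re]
    have e1 : ((((-x : ℂ) + v * Complex.I) * ξ)).re = -(x * ξ) := by
      simp
    have e2 : ((((-x : ℂ) + v * Complex.I) * ξ)).im = ξ * v := by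
      simp
      ring
    rw [e1, e2]
  simp only [h3] at h2
  rw [h2]
  unfold poi
  rw [Complex.ofReal_zero, mul_zero, Complex.exp_zero, neg_div, Complex.neg_re, one_div,
    Complex.inv_re]
  have e3 : Complex.normSq ((-x : ℂ) + v * Complex.I) = x ^ 2 + v ^ 2 := by
    rw [Complex.normSq_apply]
    simp
    ring
  rw [e3]
  simp
  ring

/-- the integrand of the representation of `arc` -/
noncomputable def ga (δ u r θ ξ : ℝ) : ℝ :=
  Real.exp (-((r * Real.cos θ + δ) * ξ)) * Real.cos (ξ * (r * Real.sin θ - u))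

theorem exp_int (δ : ℝ) (hδ : 0 < δ) : IntegrableOn (fun ξ : ℝ => Real.exp (-(δ * ξ))) (Ioi 0) := by
  have h := integrableOn_exp_mul_complex_Ioi (a := (-δ : ℂ)) (by simpa using hδ) 0
  refine h.re.congr ?_
  refine Eventually.of_forall fun ξ => ?_
  simp only [RCLike.re_eq_complex_re]
  rw [Complex.exp_re]
  simp

theorem ga_int (δ u r : ℝ) (hδ : 0 < δ) (hr : 0 ≤ r) :
    Integrable (Function.uncurry (ga δ u r))
      ((volume.restrict (Ioc (-(Real.pi / 2)) (Real.pi / 2))).prod
        (volume.restrict (Ioi (0 : ℝ)))) := by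
  have h1 : Integrable (fun _ : ℝ => (1 : ℝ))
      (volume.restrict (Ioc (-(Real.pi / 2)) (Real.pi / 2))) := by
    rw [← IntegrableOn]
    exact integrableOn_const (by simp)
  have h2 := h1.mul_prod (exp_int δ hδ)
  refine h2.mono' ?_ ?_
  · refine Continuous.aestronglyMeasurable ?_
    unfold ga Function.uncurry
    fun_prop
  · rw [Measure.prod_restrict]
    refine ae_restrict_of_forall_mem (measurableSet_Ioc.prod measurableSet_Ioi) ?_
    rintro ⟨θ, ξ⟩ ⟨hθ, hξ⟩
    simp only [Function.uncurry, mem_Ioi] at hθ hξ ⊢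
    unfold ga
    rw [Real.norm_eq_abs, abs_mul, Real.abs_exp]
    have hc : 0 ≤ Real.cos θ := Real.cos_nonneg_of_mem_Icc ⟨hθ.1.le, hθ.2⟩
    have h3 : Real.exp (-((r * Real.cos θ + δ) * ξ)) ≤ Real.exp (-(δ * ξ)) := by
      apply Real.exp_le_exp.mpr
      have := mul_nonneg (mul_nonneg hr hc) hξ.le
      nlinarith
    calc Real.exp (-((r * Real.cos θ + δ) * ξ)) * |Real.cos (ξ * (r * Real.sin θ - u))|
        ≤ Real.exp (-(δ * ξ)) * 1 :=
          mul_le_mul h3 (Real.abs_cos_le_one _) (abs_nonneg _) (Real.exp_pos _).le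
      _ = 1 * Real.exp (-(δ * ξ)) := by ring

theorem odd_int (s : ℝ) : ∫ θ in (-(Real.pi / 2))..(Real.pi / 2),
    Real.exp (-(s * Real.cos θ)) * Real.sin (s * Real.sin θ) = 0 := by
  have h := intervalIntegral.integral_comp_neg (a := -(Real.pi / 2)) (b := Real.pi / 2)
    (fun θ => Real.exp (-(s * Real.cos θ)) * Real.sin (s * Real.sin θ))
  rw [neg_neg] at h
  have h2 : ∀ θ : ℝ, Real.exp (-(s * Real.cos (-θ))) * Real.sin (s * Real.sin (-θ)) =
      -(Real.exp (-(s * Real.cos θ)) * Real.sin (s * Real.sin θ)) := by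
    intro θ
    rw [Real.cos_neg, Real.sin_neg, mul_neg, Real.sin_neg]
    ring
  simp only [h2] at h
  rw [intervalIntegral.integral_neg] at h
  linarith

theorem inner_int (δ u r ξ : ℝ) :
    ∫ θ in (-(Real.pi / 2))..(Real.pi / 2), ga δ u r θ ξ =
      Real.exp (-(δ * ξ)) * Real.cos (ξ * u) * jj (ξ * r) := by
  have h : ∀ θ : ℝ, ga δ u r θ ξ =
      Real.exp (-(δ * ξ)) * Real.cos (ξ * u) *
        (Real.exp (-((ξ * r) * Real.cos θ)) * Real.cos ((ξ * r) * Real.sin θ)) +
      Real.exp (-(δ * ξ)) * Real.sin (ξ * u) *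
        (Real.exp (-((ξ * r) * Real.cos θ)) * Real.sin ((ξ * r) * Real.sin θ)) := by
    intro θ
    unfold ga
    have e1 : Real.exp (-((r * Real.cos θ + δ) * ξ)) =
        Real.exp (-(δ * ξ)) * Real.exp (-((ξ * r) * Real.cos θ)) := by
      rw [← Real.exp_add]
      congr 1
      ring
    have e2 : Real.cos (ξ * (r * Real.sin θ - u)) =
        Real.cos ((ξ * r) * Real.sin θ) * Real.cos (ξ * u) +
          Real.sin ((ξ * r) * Real.sin θ) * Real.sin (ξ * u) := by
      rw [← Real.cos_sub]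
      congr 1
      ring
    rw [e1, e2]
    ring
  simp only [h]
  rw [intervalIntegral.integral_add (Continuous.intervalIntegrable (by fun_prop) _ _)
    (Continuous.intervalIntegrable (by fun_prop) _ _), intervalIntegral.integral_const_mul,
    intervalIntegral.integral_const_mul, odd_int, mul_zero, add_zero]
  rfl

theorem arc_eq (δ u r : ℝ) (hδ : 0 < δ) (hr : 0 ≤ r) :
    arc δ u r = ∫ ξ in Ioi (0 : ℝ), Real.exp (-(δ * ξ)) * Real.cos (ξ * u) * jj (ξ * r) := by
  have hle : -(Real.pi / 2) ≤ Real.pi / 2 := by linarith [Real.pi_pos]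
  have h1 : arc δ u r = ∫ θ in Ioc (-(Real.pi / 2)) (Real.pi / 2),
      ∫ ξ in Ioi (0 : ℝ), ga δ u r θ ξ := by
    unfold arc
    rw [intervalIntegral.integral_of_le hle]
    refine setIntegral_congr_fun measurableSet_Ioc fun θ hθ => ?_
    have hc : 0 ≤ Real.cos θ := Real.cos_nonneg_of_mem_Icc ⟨hθ.1.le, hθ.2⟩
    have hx : 0 < r * Real.cos θ + δ := by
      have := mul_nonneg hr hc
      linarith
    exact (laplace _ _ hx).symm
  rw [h1, integral_integral_swap (ga_int δ u r hδ hr)]
  refine integral_congr_ae (Eventually.of_forall fun ξ => ?_)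
  simp only
  rw [← intervalIntegral.integral_of_le hle, inner_int]

theorem pf_ak (hPB : T_PB) (hJD : T_JD) (hJP : T_JP) : T_AK := by
  intro δ u N hδ hN
  obtain ⟨-, -, -, -, hpc, hpi, -, -⟩ := hPB
  obtain ⟨-, hjb, hjc, -, -⟩ := hJD
  have hppi : Integrable (fun r : ℝ => N * pp (N * r)) :=
    (hpi.comp_mul_left' hN.ne').const_mul N
  set h : ℝ → ℝ → ℝ := fun r ξ =>
    N * pp (N * r) * (Real.exp (-(δ * ξ)) * Real.cos (ξ * u) * jj (ξ * r)) with hh
  have hint : Integrable (Function.uncurry h)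
      ((volume.restrict (Ioi (0 : ℝ))).prod (volume.restrict (Ioi (0 : ℝ)))) := by
    have h1 : Integrable (fun r : ℝ => N * pp (N * r)) (volume.restrict (Ioi (0 : ℝ))) :=
      hppi.integrableOn
    have h2 := h1.norm.mul_prod ((exp_int δ hδ).const_mul Real.pi)
    refine h2.mono' ?_ ?_
    · refine Continuous.aestronglyMeasurable ?_
      simp only [hh]
      unfold Function.uncurry
      fun_prop
    · rw [Measure.prod_restrict]
      refine ae_restrict_of_forall_mem (measurableSet_Ioi.prod measurableSet_Ioi) ?_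
      rintro ⟨r, ξ⟩ ⟨hr, hξ⟩
      simp only [Function.uncurry, mem_Ioi] at hr hξ ⊢
      simp only [hh]
      rw [norm_mul]
      refine mul_le_mul_of_nonneg_left ?_ (norm_nonneg _)
      rw [Real.norm_eq_abs, abs_mul, abs_mul, Real.abs_exp]
      have h3 := hjb (ξ * r) (mul_pos hξ hr).le
      calc Real.exp (-(δ * ξ)) * |Real.cos (ξ * u)| * |jj (ξ * r)|
          ≤ Real.exp (-(δ * ξ)) * 1 * Real.pi := by
            refine mul_le_mul ?_ h3 (abs_nonneg _) (by positivity)
            exact mul_le_mul_of_nonneg_left (Real.abs_cos_le_one _) (Real.exp_pos _).le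
        _ = Real.pi * Real.exp (-(δ * ξ)) := by ring
  have hinner : ∀ r ∈ Ioi (0 : ℝ), (∫ ξ in Ioi (0 : ℝ), h r ξ) =
      N * pp (N * r) * arc δ u r := by
    intro r hr
    simp only [hh]
    rw [integral_const_mul, arc_eq δ u r hδ (le_of_lt hr)]
  refine ⟨?_, ?_⟩
  · have h1 := hint.integral_prod_left
    rw [IntegrableOn]
    refine h1.congr ?_
    refine ae_restrict_of_forall_mem measurableSet_Ioi fun r hr => ?_
    simp only [Function.uncurry]
    exact hinner r hr
  · have h1 : ∫ r in Ioi (0 : ℝ), N * pp (N * r) * arc δ u r =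
        ∫ r in Ioi (0 : ℝ), ∫ ξ in Ioi (0 : ℝ), h r ξ :=
      setIntegral_congr_fun measurableSet_Ioi fun r hr => (hinner r hr).symm
    rw [h1, integral_integral_swap hint]
    have h2 : ∀ ξ ∈ Ioi (0 : ℝ), (∫ r in Ioi (0 : ℝ), h r ξ) =
        Real.exp (-(δ * ξ)) * Real.cos (ξ * u) * (Real.pi * (max (1 - ξ / N) 0) ^ 3) := by
      intro ξ hξ
      have h3 : ∀ r : ℝ, h r ξ = Real.exp (-(δ * ξ)) * Real.cos (ξ * u) *
          (N * (fun s => pp s * jj (ξ / N * s)) (N * r)) := by
        intro r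
        simp only [hh]
        have : ξ / N * (N * r) = ξ * r := by
          field_simp
        rw [this]
        ring
      simp only [h3]
      rw [integral_const_mul, integral_const_mul,
        integral_comp_mul_left_Ioi (fun s => pp s * jj (ξ / N * s)) 0 hN, mul_zero,
        hJP.2 (ξ / N) (div_nonneg (le_of_lt hξ) hN.le), smul_eq_mul, ← mul_assoc N,
        mul_inv_cancel₀ hN.ne', one_mul]
    rw [setIntegral_congr_fun measurableSet_Ioi h2]
    rw [intervalIntegral.integral_of_le hN.le, ← integral_const_mul]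
    have h4 : Ioi (0 : ℝ) = Ioc 0 N ∪ Ioi N := (Ioc_union_Ioi_eq_Ioi hN.le).symm
    have hz : ∀ ξ ∈ Ioi N, Real.exp (-(δ * ξ)) * Real.cos (ξ * u) *
        (Real.pi * (max (1 - ξ / N) 0) ^ 3) = 0 := by
      intro ξ hξ
      have : 1 - ξ / N ≤ 0 := by
        have : 1 ≤ ξ / N := by
          rw [le_div_iff₀ hN, one_mul]
          exact le_of_lt hξ
        linarith
      rw [max_eq_right this]
      ring
    have hcont : Continuous fun ξ : ℝ => Real.exp (-(δ * ξ)) * Real.cos (ξ * u) *
        (Real.pi * (max (1 - ξ / N) 0) ^ 3) := by fun_prop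
    rw [h4, setIntegral_union (Ioc_disjoint_Ioi le_rfl) measurableSet_Ioi
      (hcont.integrableOn_Ioc) (by
        refine (integrableOn_zero (μ := volume) (s := Ioi N)).congr_fun ?_ measurableSet_Ioi
        intro ξ hξ
        exact (hz ξ hξ).symm), setIntegral_congr_fun measurableSet_Ioi hz, integral_zero,
      add_zero]
    refine setIntegral_congr_fun measurableSet_Ioc fun ξ hξ => ?_
    have : 0 ≤ 1 - ξ / N := by
      have : ξ / N ≤ 1 := by
        rw [div_le_one hN]
        exact hξ.2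
      linarith
    rw [max_eq_left this]
    ring

end Pool.Agent.H58.MQ.AK
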