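import Pool.Agent.H26.MQ.Defs

/-!
# Module JD of the board mq_modules
-/

set_option autoImplicit false

open MeasureTheory Set Filter Topology

namespace Pool.Agent.H58.MQ

open Pool.Agent.H26.ML Pool.Agent.H26.MQ

/-- the integrand of `jj` -/
noncomputable def fj (s θ : ℝ) : ℝ := Real.exp (-(s * Real.cos θ)) * Real.cos (s * Real.sin θ)

/-- its derivative in `s` -/
noncomputable def dj (s θ : ℝ) : ℝ := -(Real.exp (-(s * Real.cos θ)) *
  (Real.cos θ * Real.cos (s * Real.sin θ) + Real.sin θ * Real.sin (s * Real.sin θ)))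

theorem jj_eq (s : ℝ) : jj s = ∫ θ in (-(Real.pi / 2))..(Real.pi / 2), fj s θ := rfl

theorem fj_cont2 : Continuous (Function.uncurry fj) := by
  unfold fj Function.uncurry
  fun_prop

theorem fj_cont (s : ℝ) : Continuous (fj s) := by
  unfold fj
  fun_prop

theorem dj_cont (s : ℝ) : Continuous (dj s) := by
  unfold dj
  fun_prop

theorem jj_zero : jj 0 = Real.pi := by
  rw [jj_eq]
  have h : ∀ θ, fj 0 θ = 1 := fun θ => by
    unfold fj
    simp
  simp only [h]
  rw [intervalIntegral.integral_const, smul_eq_mul, mul_one]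
  ring

theorem uIoc_half {θ : ℝ} (h : θ ∈ Set.uIoc (-(Real.pi / 2)) (Real.pi / 2)) :
    -(Real.pi / 2) < θ ∧ θ ≤ Real.pi / 2 := by
  rw [Set.uIoc_of_le (by linarith [Real.pi_pos])] at h
  exact h

theorem fj_abs {s θ : ℝ} (hs : 0 ≤ s) (h : -(Real.pi / 2) < θ ∧ θ ≤ Real.pi / 2) :
    |fj s θ| ≤ 1 := by
  unfold fj
  rw [abs_mul, Real.abs_exp]
  have hc : 0 ≤ Real.cos θ := Real.cos_nonneg_of_mem_Icc ⟨h.1.le, h.2⟩
  have h1 : Real.exp (-(s * Real.cos θ)) ≤ 1 := by
    rw [Real.exp_le_one_iff]
    have := mul_nonneg hs hc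
    linarith
  calc Real.exp (-(s * Real.cos θ)) * |Real.cos (s * Real.sin θ)| ≤ 1 * 1 :=
        mul_le_mul h1 (Real.abs_cos_le_one _) (abs_nonneg _) zero_le_one
    _ = 1 := by ring

theorem jj_abs (s : ℝ) (hs : 0 ≤ s) : |jj s| ≤ Real.pi := by
  rw [jj_eq, ← Real.norm_eq_abs]
  have h := intervalIntegral.norm_integral_le_of_norm_le_const (a := -(Real.pi / 2))
    (b := Real.pi / 2) (C := 1) (f := fj s) (fun θ hθ => by
      rw [Real.norm_eq_abs]
      exact fj_abs hs (uIoc_half hθ))
  refine h.trans (le_of_eq ?_)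
  rw [one_mul, show Real.pi / 2 - -(Real.pi / 2) = Real.pi by ring, abs_of_pos Real.pi_pos]

theorem jj_cont : Continuous jj := by
  have h := intervalIntegral.continuous_parametric_intervalIntegral_of_continuous'
    (μ := volume) fj_cont2 (-(Real.pi / 2)) (Real.pi / 2)
  exact h

theorem jj_tendsto : Tendsto jj atTop (𝓝 0) := by
  have h := intervalIntegral.tendsto_integral_filter_of_dominated_convergence
    (μ := volume) (a := -(Real.pi / 2)) (b := Real.pi / 2) (l := atTop) (F := fj)
    (f := fun _ => (0 : ℝ)) (fun _ => (1 : ℝ))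
    (Eventually.of_forall fun s => (fj_cont s).aestronglyMeasurable)
    (by
      filter_upwards [eventually_ge_atTop (0 : ℝ)] with s hs
      refine Eventually.of_forall fun θ hθ => ?_
      rw [Real.norm_eq_abs]
      exact fj_abs hs (uIoc_half hθ))
    (by exact continuous_const.intervalIntegrable _ _)
    (by
      have hne : ∀ᵐ θ : ℝ, θ ≠ Real.pi / 2 := by
        rw [ae_iff]
        simp
      filter_upwards [hne] with θ hne hθ
      have h1 := uIoc_half hθ
      have hc : 0 < Real.cos θ :=
        Real.cos_pos_of_mem_Ioo ⟨h1.1, lt_of_le_of_ne h1.2 hne⟩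
      have h2 : Tendsto (fun s : ℝ => Real.exp (-(s * Real.cos θ))) atTop (𝓝 0) := by
        refine Real.tendsto_exp_neg_atTop_nhds_zero.comp ?_
        exact tendsto_id.atTop_mul_const hc
      refine squeeze_zero_norm (a := fun s : ℝ => Real.exp (-(s * Real.cos θ))) ?_ h2
      intro s
      unfold fj
      rw [Real.norm_eq_abs, abs_mul, Real.abs_exp]
      exact mul_le_of_le_one_right (Real.exp_pos _).le (Real.abs_cos_le_one _))
  rw [intervalIntegral.integral_zero] at h
  exact h

theorem fj_deriv (θ s : ℝ) : HasDerivAt (fun s => fj s θ) (dj s θ) s := by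
  unfold fj dj
  have h1 : HasDerivAt (fun s : ℝ => Real.exp (-(s * Real.cos θ)))
      (Real.exp (-(s * Real.cos θ)) * (-(Real.cos θ))) s := by
    have h : HasDerivAt (fun s : ℝ => -(s * Real.cos θ)) (-(Real.cos θ)) s := by
      have := ((hasDerivAt_id s).mul_const (Real.cos θ)).neg
      rw [one_mul] at this
      exact this
    exact h.exp
  have h2 : HasDerivAt (fun s : ℝ => Real.cos (s * Real.sin θ))
      (-Real.sin (s * Real.sin θ) * Real.sin θ) s := by
    have h : HasDerivAt (fun s : ℝ => s * Real.sin θ) (Real.sin θ) s := by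
      have := (hasDerivAt_id s).mul_const (Real.sin θ)
      simpa using this
    exact h.cos
  refine (h1.mul h2).congr_deriv ?_
  ring

theorem dj_abs (s θ : ℝ) : |dj s θ| ≤ 2 * Real.exp |s| := by
  unfold dj
  rw [abs_neg, abs_mul, Real.abs_exp]
  have h1 : Real.exp (-(s * Real.cos θ)) ≤ Real.exp |s| := by
    apply Real.exp_le_exp.mpr
    calc -(s * Real.cos θ) ≤ |s * Real.cos θ| := neg_le_abs _
      _ = |s| * |Real.cos θ| := abs_mul _ _
      _ ≤ |s| * 1 := mul_le_mul_of_nonneg_left (Real.abs_cos_le_one _) (abs_nonneg _)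
      _ = |s| := mul_one _
  have h2 : |Real.cos θ * Real.cos (s * Real.sin θ) +
      Real.sin θ * Real.sin (s * Real.sin θ)| ≤ 2 := by
    calc |Real.cos θ * Real.cos (s * Real.sin θ) + Real.sin θ * Real.sin (s * Real.sin θ)|
        = |Real.cos (θ - s * Real.sin θ)| := by rw [Real.cos_sub]
      _ ≤ 1 := Real.abs_cos_le_one _
      _ ≤ 2 := by norm_num
  calc Real.exp (-(s * Real.cos θ)) * |Real.cos θ * Real.cos (s * Real.sin θ) +
        Real.sin θ * Real.sin (s * Real.sin θ)| ≤ Real.exp |s| * 2 :=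
        mul_le_mul h1 h2 (abs_nonneg _) (Real.exp_pos _).le
    _ = 2 * Real.exp |s| := mul_comm _ _

theorem dj_int (s : ℝ) :
    ∫ θ in (-(Real.pi / 2))..(Real.pi / 2), dj s θ = -2 * Real.sinc s := by
  by_cases hs : s = 0
  · subst hs
    have h : ∀ θ, dj 0 θ = -Real.cos θ := fun θ => by
      unfold dj
      simp
    simp only [h]
    rw [intervalIntegral.integral_neg, integral_cos, Real.sin_neg, Real.sin_pi_div_two,
      Real.sinc_zero]
    ring
  · have hG : ∀ θ : ℝ, HasDerivAt
        (fun θ => -(1 / s) * (Real.exp (-(s * Real.cos θ)) * Real.sin (s * Real.sin θ)))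
        (dj s θ) θ := by
      intro θ
      have h1 : HasDerivAt (fun θ : ℝ => Real.exp (-(s * Real.cos θ)))
          (Real.exp (-(s * Real.cos θ)) * (s * Real.sin θ)) θ := by
        have h : HasDerivAt (fun θ : ℝ => -(s * Real.cos θ)) (s * Real.sin θ) θ := by
          have := ((Real.hasDerivAt_cos θ).const_mul s).neg
          refine this.congr_deriv ?_
          ring
        exact h.exp
      have h2 : HasDerivAt (fun θ : ℝ => Real.sin (s * Real.sin θ))
          (Real.cos (s * Real.sin θ) * (s * Real.cos θ)) θ := by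
        have h : HasDerivAt (fun θ : ℝ => s * Real.sin θ) (s * Real.cos θ) θ :=
          (Real.hasDerivAt_sin θ).const_mul s
        exact h.sin
      refine ((h1.mul h2).const_mul (-(1 / s))).congr_deriv ?_
      unfold dj
      field_simp
      ring
    rw [intervalIntegral.integral_eq_sub_of_hasDerivAt (fun θ _ => hG θ)
      ((dj_cont s).intervalIntegrable _ _)]
    rw [Real.cos_neg, Real.sin_neg, Real.cos_pi_div_two, Real.sin_pi_div_two,
      Real.sinc_of_ne_zero hs]
    simp only [mul_zero, neg_zero, Real.exp_zero, mul_one, one_mul, mul_neg, Real.sin_neg]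
    field_simp
    ring

theorem jj_deriv (s : ℝ) : HasDerivAt jj (-2 * Real.sinc s) s := by
  have h := intervalIntegral.hasDerivAt_integral_of_dominated_loc_of_deriv_le
    (μ := volume) (a := -(Real.pi / 2)) (b := Real.pi / 2) (F := fj) (F' := dj) (x₀ := s)
    (s := Metric.ball s 1) (bound := fun _ => 2 * Real.exp (|s| + 1))
    (Metric.ball_mem_nhds s one_pos)
    (Eventually.of_forall fun s => (fj_cont s).aestronglyMeasurable)
    ((fj_cont s).intervalIntegrable _ _) (dj_cont s).aestronglyMeasurable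
    (Eventually.of_forall fun θ _ x hx => by
      rw [Real.norm_eq_abs]
      refine (dj_abs x θ).trans ?_
      have : |x| ≤ |s| + 1 := by
        rw [Metric.mem_ball, Real.dist_eq] at hx
        have := abs_sub_abs_le_abs_sub x s
        linarith
      have := Real.exp_le_exp.mpr this
      linarith)
    (continuous_const.intervalIntegrable _ _)
    (Eventually.of_forall fun θ _ x _ => fj_deriv θ x)
  rw [← dj_int s]
  exact h.2

theorem jj_formula (b : ℝ) : jj b = Real.pi - 2 * ∫ t in (0 : ℝ)..b, Real.sinc t := by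
  have h := intervalIntegral.integral_eq_sub_of_hasDerivAt (a := 0) (b := b)
    (fun t _ => jj_deriv t)
    ((continuous_const.mul Real.continuous_sinc).intervalIntegrable _ _)
  rw [intervalIntegral.integral_const_mul, jj_zero] at h
  linarith

theorem sinc_sub (ξ r : ℝ) (hξ : 0 < ξ) :
    ∫ t in (0 : ℝ)..(ξ * r), Real.sinc t = ∫ η in (0 : ℝ)..ξ, Real.sin (η * r) / η := by
  have h := intervalIntegral.mul_integral_comp_mul_right (a := 0) (b := ξ) (f := Real.sinc) r
  rw [zero_mul] at h
  rw [← h, ← intervalIntegral.integral_const_mul]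
  rw [intervalIntegral.integral_of_le hξ.le, intervalIntegral.integral_of_le hξ.le]
  refine setIntegral_congr_fun measurableSet_Ioc fun η hη => ?_
  have hη0 : η ≠ 0 := hη.1.ne'
  by_cases hr : r = 0
  · subst hr
    simp
  · rw [Real.sinc_of_ne_zero (mul_ne_zero hη0 hr)]
    field_simp

theorem pf_jd : T_JD := by
  refine ⟨jj_zero, jj_abs, jj_cont, jj_tendsto, ?_⟩
  intro ξ r hξ _
  rw [jj_formula, sinc_sub ξ r hξ]

end Pool.Agent.H58.MQ
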